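import Pool.Agent.TH78.WP.Sharp

set_option autoImplicit false

open Finset MvPolynomial NumberField Pool.Agent.TH78.WP

namespace Pool.Agent.Results.MP_13bc7b_nt.WildPlaceSharp

/-- **A sharp uniform bound at a place above the degree.**
Let `K` be a number field of ARBITRARY degree, `P` a prime ideal above the rational prime `p`, of norm
`q` and of ramification index at most `e`, where `e < p - 1`.  Let `d = p ^ k * m` with `k ≥ 1`,
`p ∤ m` and `d` prime to `q - 1`; if `N ≠ 1`, assume in addition `e * k * q ^ (N - 1) < d - 1`.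
Then for all forms `g_i ∈ K[x_0, …, x_{i-1}]` of degree `d` the triangular map
`f = [x_0 ^ d + g_0 : … : x_N ^ d + g_N]` is a morphism of the projective space of dimension `N`,
and at most `1 + q + … + q ^ N = #ℙ^N(𝔽_q)` points of `ℙ^N(K)` are preperiodic for `f`.
If `K` contains a primitive `(q - 1)`-th root of unity, then the bound is attained for `g = 0`. -/
theorem result (K : Type) [Field K] [NumberField K] (P : Ideal (𝓞 K)) (hP : P.IsPrime)
    (p e k m N : ℕ) (hp : p.Prime) (hpP : (p : 𝓞 K) ∈ P) (he : (p : 𝓞 K) ∉ P ^ (e + 1))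
    (hep : e + 1 < p) (hk : 1 ≤ k) (hm : ¬ p ∣ m)
    (hcop : Nat.Coprime (p ^ k * m) (Ideal.absNorm P - 1))
    (hN : N = 1 ∨ e * k * Ideal.absNorm P ^ (N - 1) < p ^ k * m - 1) :
    (∀ g : Fin (N + 1) → MvPolynomial (Fin (N + 1)) K,
      (∀ i, (g i).IsHomogeneous (p ^ k * m)) → (∀ i, (g i).vars ⊆ Finset.Iio i) →
      (∀ x : Fin (N + 1) → AlgebraicClosure K,
        (∀ i, aeval x (X i ^ (p ^ k * m) + g i) = 0) → x = 0) ∧
      ∀ S : Finset (Fin (N + 1) → K),
        (∀ x ∈ S, x ≠ 0) →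
        (∀ x ∈ S, ∀ y ∈ S, ∀ c : K, x = c • y → x = y) →
        (∀ x ∈ S, ∃ s t : ℕ, s < t ∧ ∃ c : K, c ≠ 0 ∧
          (fun y : Fin (N + 1) → K => fun i => MvPolynomial.eval y (X i ^ (p ^ k * m) + g i))^[t] x =
            c • (fun y : Fin (N + 1) → K => fun i =>
              MvPolynomial.eval y (X i ^ (p ^ k * m) + g i))^[s] x) →
        S.card ≤ ∑ i ∈ range (N + 1), Ideal.absNorm P ^ i) ∧
    (∀ ζ : K, IsPrimitiveRoot ζ (Ideal.absNorm P - 1) →
      ∃ S : Finset (Fin (N + 1) → K), S.card = ∑ i ∈ range (N + 1), Ideal.absNorm P ^ i ∧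
        (∀ x ∈ S, x ≠ 0) ∧
        (∀ x ∈ S, ∀ y ∈ S, ∀ c : K, x = c • y → x = y) ∧
        (∀ x ∈ S, ∃ s t : ℕ, s < t ∧ ∃ c : K, c ≠ 0 ∧
          (fun y : Fin (N + 1) → K => fun i => y i ^ (p ^ k * m))^[t] x =
            c • (fun y : Fin (N + 1) → K => fun i => y i ^ (p ^ k * m))^[s] x)) := by
  obtain ⟨v, w⟩ := isPlace_of_prime K P hP p hp hpP e he hep
  have hm1 : 1 ≤ m := by
    rcases Nat.eq_zero_or_pos m with h | h
    · subst h; exact absurd (dvd_zero p) hm
    · exact h
  have D : Expo p (Ideal.absNorm P) (p ^ k * m) k :=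
    ⟨hk, hcop, m, rfl, hm1, ((Nat.Prime.coprime_iff_not_dvd hp).2 hm).symm⟩
  have hd0 : p ^ k * m ≠ 0 := by have := D.two_le w; omega
  have hpk : ∀ k : ℕ, k * (p - 1) + 1 ≤ p ^ k := by
    intro k
    induction k with
    | zero => simp
    | succ k ih =>
      have hp2 := hp.two_le
      obtain ⟨r, hr⟩ : ∃ r, p = r + 1 := ⟨p - 1, by omega⟩
      subst hr
      simp only [Nat.add_sub_cancel] at ih ⊢
      have h1 : 1 ≤ (r + 1) ^ k := Nat.one_le_pow _ _ (by omega)
      calc (k + 1) * r + 1 = (k * r + 1) + 1 * r := by ring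
        _ ≤ (r + 1) ^ k + (r + 1) ^ k * r := Nat.add_le_add ih (Nat.mul_le_mul_right _ h1)
        _ = (r + 1) ^ (k + 1) := by rw [pow_succ]; ring
  have hsize : e * k * Ideal.absNorm P ^ (N - 1) < p ^ k * m - 1 := by
    rcases hN with h | h
    · subst h
      rw [Nat.sub_self, pow_zero, mul_one]
      have h1 := hpk k
      have h2 : p ^ k ≤ p ^ k * m := Nat.le_mul_of_pos_right _ hm1
      have h3 : e * k < k * (p - 1) := by
        rw [mul_comm]
        exact Nat.mul_lt_mul_of_pos_left (by omega) (by omega)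
      omega
    · exact h
  refine ⟨fun g hg hv => ⟨fun x hx => morphism hd0 g hg hv x hx, fun S h0 h1 h2 =>
    bound w D hsize g hg hv S h0 h1 h2⟩, ?_⟩
  intro ζ hζ
  have hq2 : 2 ≤ Ideal.absNorm P := by
    classical
    have := w.hv.card_le ({0, 1} : Finset K) (by
      intro x hx y hy h
      rw [mem_insert, mem_singleton] at hx hy
      rcases hx with rfl | rfl <;> rcases hy with rfl | rfl
      · exact absurd rfl h
      · simp
      · simp
      · exact absurd rfl h)
    rwa [Finset.card_pair zero_ne_one] at this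
  obtain ⟨S, hS1, hS2, hS3, hS4⟩ := sharp hd0 hq2 hcop hζ N
  refine ⟨S, hS1, hS2, hS3, ?_⟩
  have hfun : (fmap (p ^ k * m) (0 : Fin (N + 1) → MvPolynomial (Fin (N + 1)) K)) =
      fun y : Fin (N + 1) → K => fun i => y i ^ (p ^ k * m) := by
    funext y i
    simp [fmap]
  rw [hfun] at hS4
  exact hS4

end Pool.Agent.Results.MP_13bc7b_nt.WildPlaceSharp
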